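import Pool.Agent.Helper99.PG.Goals

/-!
PROJECT C2, target (a): packet PG-FILL.
-/

namespace Pool.Agent.Helper54.PG

open Pool.Agent.Helper36.SC Pool.Agent.Helper37.Arb Pool.Agent.Helper52.C2
open Pool.Agent.Helper99.PG
open scoped Classical

/-! ### Evaluation -/

theorem ev_zero (x : ℝ) : ev 0 x = 0 := by
  unfold ev
  have h : (0 : LaurentPolynomial ℝ).coeff = 0 := by
    ext i
    simp
  rw [h]
  exact Finsupp.sum_zero_index

theorem ev_nonneg (f : LaurentPolynomial ℝ) (h : ∀ i, 0 ≤ f.coeff i) {x : ℝ} (hx : 0 < x) :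
    0 ≤ ev f x := by
  unfold ev Finsupp.sum
  exact Finset.sum_nonneg fun i _ => mul_nonneg (h i) (zpow_pos hx i).le

theorem ev_eq_zero (f : LaurentPolynomial ℝ) (h : ∀ i, 0 ≤ f.coeff i) {x : ℝ} (hx : 0 < x)
    (h0 : ev f x = 0) : f = 0 := by
  unfold ev Finsupp.sum at h0
  rw [Finset.sum_eq_zero_iff_of_nonneg
    (fun i _ => mul_nonneg (h i) (zpow_pos hx i).le)] at h0
  have h1 : ∀ i, f.coeff i = 0 := by
    intro i
    by_contra hi
    have h2 := h0 i (Finsupp.mem_support_iff.2 hi)
    rcases mul_eq_zero.1 h2 with h3 | h3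
    · exact hi h3
    · exact (zpow_pos hx i).ne' h3
  ext i
  simpa using h1 i

/-- the port matrix under a ring homomorphism -/
theorem portMat_map {V A B : Type} [CommRing A] [CommRing B] (φ : A →+* B)
    (up dn : V → Option V) (x : A) (b r : V → A) :
    (portMat up dn x b r).map φ = portMat up dn (φ x) (fun v => φ (b v)) fun v => φ (r v) := by
  ext i j
  simp only [Matrix.map_apply, portMat]
  split_ifs <;> simp only [map_sub, map_add, map_mul, map_one, map_zero, mul_one, mul_zero]

theorem GP_map {V : Type} [Fintype V] (H : Hyp V) (κ : Bool) (s : V → Tg)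
    (φ : LaurentPolynomial ℝ →+* ℝ) : φ (H.GP κ s) =
      (portMat H.up (H.dn κ) (φ (LaurentPolynomial.T 1)) (fun v => φ (s v).F)
        fun v => φ (s v).R).det := by
  unfold Hyp.GP
  rw [RingHom.map_det, RingHom.mapMatrix_apply, portMat_map]

theorem prod_zpow_sum {V : Type} (t : Finset V) (j : V → ℤ) {x : ℝ} (hx : 0 < x) :
    ∏ v ∈ t, x ^ j v = x ^ ∑ v ∈ t, j v := by
  induction t using Finset.induction_on with
  | empty => simp
  | insert a t ha ih => rw [Finset.prod_insert ha, Finset.sum_insert ha, ih, zpow_add₀ hx.ne']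

theorem fill_over {V : Type} [DecidableEq V] [Fintype V] (D : AltDiagram (Option V)) (l r w : V)
    (M : V → Marked) (hr : D.overNext (some r) = none) (hw : D.overNext none = some w) :
    (fill D l r M).D.overNext (fill D l r M).r = ⟨w, (M w).D.overNext (M w).r⟩ := by
  have h : Equiv.removeNone D.overNext r = w := by
    apply Option.some_injective
    rw [Equiv.removeNone_none _ hr, hw]
  show (Equiv.sigmaCongrRight fun v => (M v).D.overNext)
    (mv (Equiv.removeNone D.overNext) (fun v => (M v).r) ⟨r, (M r).r⟩) = _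
  rw [mv_mark, h]
  rfl

theorem fill_under {V : Type} [DecidableEq V] [Fintype V] (D : AltDiagram (Option V)) (l r w : V)
    (M : V → Marked) (hl : D.underNext (some l) = none) (hw : D.underNext none = some w) :
    (fill D l r M).D.underNext (fill D l r M).l = ⟨w, (M w).D.underNext (M w).l⟩ := by
  have h : Equiv.removeNone D.underNext l = w := by
    apply Option.some_injective
    rw [Equiv.removeNone_none _ hl, hw]
  show (Equiv.sigmaCongrRight fun v => (M v).D.underNext)
    (mv (Equiv.removeNone D.underNext) (fun v => (M v).l) ⟨l, (M l).l⟩) = _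
  rw [mv_mark, h]
  rfl

theorem geo_zero : geo 0 = 0 := by simp [geo]

theorem geo_one : geo 1 = 1 := by simp [geo]

theorem U0R : (U 0).R = 1 := by simp [U]
theorem U0F : (U 0).F = 0 := by simp [U, geo_zero]
theorem U1R : (U 1).R = LaurentPolynomial.T 1 := rfl
theorem U1F : (U 1).F = 1 := by simp [U, geo_one]

theorem det_inst {n : Type} [Fintype n] (d d' : DecidableEq n) (M : Matrix n n ℝ) :
    @Matrix.det n d _ ℝ _ M = @Matrix.det n d' _ ℝ _ M := by
  rw [Subsingleton.elim d d']

theorem slot_inst {E : Type} (d d' : DecidableEq E) (Φ : (E → Tg) → LaurentPolynomial ℝ)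
    (a : E → Tg) (e : E) : @slot E d Φ a e = @slot E d' Φ a e := by
  rw [Subsingleton.elim d d']

theorem fillOK : GoalFill := by
  intro hev hmf hcd hcr hpr hpos hidx V _ _ S H G hα hβ hphi hHH M s hM
  set a0 : Option V → Tg := fun o => o.elim (U 0) s with ha0
  set Q : Tg := slot G.Phi a0 none with hQ
  have hs : (fun v => a0 (some v)) = s := rfl
  have hP0 : G.Phi (Function.update a0 none (U 0)) = H.GP false s := by
    rw [hphi]
    simp only [Function.update_self, ne_eq, reduceCtorEq, not_false_eq_true,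
      Function.update_of_ne, U0R, U0F, one_mul, zero_mul, add_zero]
    rfl
  have hP1 : G.Phi (Function.update a0 none (U 1)) = H.GP true s := by
    rw [hphi]
    simp only [Function.update_self, ne_eq, reduceCtorEq, not_false_eq_true,
      Function.update_of_ne, U1R, U1F, one_mul]
    rw [add_sub_cancel]
    rfl
  have hQF : Q.F = H.GP false s := by
    rw [← hP0, hQ]
    unfold slot
    simp only
  have hQL : Q.L = H.GP true s - LaurentPolynomial.T 1 * H.GP false s := by
    rw [← hP0, ← hP1, hQ]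
    unfold slot
    simp only
  have hQR : Q.R = H.GP true s - H.GP false s := by
    rw [← hP0, ← hP1, hQ]
    unfold slot
    simp only
  have hHQ : Q.HH1 := by
    rw [hQ, slot_inst _ (fun a b => Classical.propDecidable (a = b))]
    have e := hHH a0 (fun v => (hM v).1)
    rwa [slot_inst _ (fun a b => Classical.propDecidable (a = b))] at e
  -- values
  obtain ⟨A, hAdef⟩ : ∃ A : Bool → ℝ → ℝ, ∀ κ x, A κ x =
    (portMat H.up (H.dn κ) x (fun v => ev (s v).F x) fun v => ev (s v).R x).det :=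
    ⟨_, fun _ _ => rfl⟩
  have hrel : ∀ x : ℝ, 0 < x → ∀ v, ev (s v).L x - ev (s v).R x = (1 - x) * ev (s v).F x :=
    fun x hx v => ((hM v).2.1 x hx).2.2.2
  have hA : ∀ κ x, 0 < x → 0 < A κ x := by
    intro κ x hx
    rw [hAdef]
    refine hpos H κ x (fun v => ev (s v).L x) (fun v => ev (s v).R x) (fun v => ev (s v).F x) hx
      (hrel x hx) ?_
    intro v
    obtain ⟨h1, h2, h3, -⟩ := (hM v).2.1 x hx
    exact ⟨h1, h2, h3⟩
  have hGP : ∀ κ x, 0 < x → ev (H.GP κ s) x = A κ x := by
    intro κ x hx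
    obtain ⟨φ, hφ, hT⟩ := hev x hx
    rw [hAdef, ← hφ, GP_map, hT, zpow_one]
    simp only [hφ]
    exact det_inst _ _ _
  have hF : ∀ x, 0 < x → ev Q.F x = A false x := fun x hx => by rw [hQF, hGP _ _ hx]
  have hL : ∀ x, 0 < x → ev Q.L x = A true x - x * A false x := by
    intro x hx
    obtain ⟨φ, hφ, hT⟩ := hev x hx
    rw [hQL, ← hφ, map_sub, map_mul, hT, hφ, hφ, hGP _ _ hx, hGP _ _ hx]
    simp
  have hR : ∀ x, 0 < x → ev Q.R x = A true x - A false x := by
    intro x hx
    obtain ⟨φ, hφ, hT⟩ := hev x hx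
    rw [hQR, ← hφ, map_sub, hφ, hφ, hGP _ _ hx, hGP _ _ hx]
  have hRne : Q.R ≠ 0 := by
    intro h0
    have h1 : ∀ x, 0 < x → A true x = A false x := by
      intro x hx
      have := hR x hx
      rw [h0] at this
      rw [ev_zero] at this
      linarith
    have h2 : Q.L = 0 := by
      apply ev_eq_zero Q.L hHQ.nonneg.L one_pos
      rw [hL 1 one_pos, h1 1 one_pos]
      ring
    have h3 := hL 2 two_pos
    rw [h2, h1 2 two_pos] at h3
    rw [ev_zero] at h3
    have h4 := hA false 2 two_pos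
    linarith
  have hLne : Q.L ≠ 0 := by
    intro h0
    apply hRne
    apply ev_eq_zero Q.R hHQ.nonneg.R one_pos
    have h1 := hL 1 one_pos
    rw [h0] at h1
    rw [ev_zero] at h1
    rw [hR 1 one_pos]
    linarith
  have hRpos : ∀ x, 0 < x → 0 < ev Q.R x := fun x hx =>
    lt_of_le_of_ne (ev_nonneg _ hHQ.nonneg.R hx) fun h => hRne (ev_eq_zero _ hHQ.nonneg.R hx h.symm)
  have hLpos : ∀ x, 0 < x → 0 < ev Q.L x := fun x hx =>
    lt_of_le_of_ne (ev_nonneg _ hHQ.nonneg.L hx) fun h => hLne (ev_eq_zero _ hHQ.nonneg.L hx h.symm)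
  refine ⟨Q, hHQ, ?_, ?_, hidx S M fun v => (hM v).2.2.2⟩
  · intro x hx
    refine ⟨hLpos x hx, hRpos x hx, ?_, ?_⟩
    · rw [hF x hx]
      exact hA _ _ hx
    · rw [hF x hx, hL x hx, hR x hx]
      ring
  choose j hj using fun v => (hM v).2.2.1
  refine ⟨∑ v, j v, ?_⟩
  intro x hx
  have hup : (fun v => S.D.underNext (some v)) = H.up := by
    funext v
    unfold Hyp.up
    rw [hα]
  have hdn : (fun v => S.D.overNext.symm (some v)) = H.dn true := by
    funext v
    unfold Hyp.dn
    rw [hβ]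
    rfl
  have hbR : ∀ v, 0 < ev (s v).F x + ev (s v).R x := by
    intro v
    obtain ⟨h1, h2, h3, -⟩ := (hM v).2.1 x hx
    linarith
  have hnode : ∀ v, NodeResp (openMat true (M v) x) (M v).l ((M v).D.overNext (M v).r)
      ((M v).D.underNext (M v).l) (M v).r (fwd (M v).D x (M v).l)
      (bwd (M v).D x ((M v).D.overNext (M v).r)) x (ev (s v).L x) (ev (s v).R x)
      (ev (s v).F x) := by
    intro v
    obtain ⟨h1, h2⟩ := hj v x hx
    refine ⟨?_, h2⟩
    rw [h1]
    exact (mul_pos (zpow_pos hx _) (hbR v)).ne'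
  have hmf' := hmf S M x
  rw [hup, hdn] at hmf'
  have hcd' := hcd H.up (H.dn true) (fun v => openMat true (M v) x) (fun v => (M v).l)
    (fun v => (M v).D.overNext (M v).r) (fun v => (M v).D.underNext (M v).l) (fun v => (M v).r)
    (fun v => fwd (M v).D x (M v).l) (fun v => bwd (M v).D x ((M v).D.overNext (M v).r))
    (fun v => ev (s v).L x) (fun v => ev (s v).R x) (fun v => ev (s v).F x) x hnode (hrel x hx)
    (fun v => (hbR v).ne')
  rw [← hAdef] at hcd'
  have hprod : ∏ v, (openMat true (M v) x).det =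
      x ^ (∑ v, j v) * ∏ v, (ev (s v).F x + ev (s v).R x) := by
    rw [← prod_zpow_sum Finset.univ j hx, ← Finset.prod_mul_distrib]
    exact Finset.prod_congr rfl fun v _ => (hj v x hx).1
  have hne : ∏ v, (ev (s v).F x + ev (s v).R x) ≠ 0 :=
    Finset.prod_ne_zero_iff.2 fun v _ => (hbR v).ne'
  have hdet : (openMat true (fill S.D S.l S.r M) x).det = x ^ (∑ v, j v) * A true x := by
    rw [hmf']
    apply mul_right_cancel₀ hne
    refine hcd'.trans ?_
    rw [hprod]
    ring
  refine ⟨?_, ?_⟩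
  · rw [hdet, hF x hx, hR x hx]
    ring
  intro a t
  obtain ⟨wl, hwl⟩ : ∃ w, S.D.underNext none = some w :=
    Option.ne_none_iff_exists'.1 (by rw [← hα]; exact H.hα)
  obtain ⟨wb, hwb⟩ : ∃ w, S.D.overNext none = some w :=
    Option.ne_none_iff_exists'.1 (by rw [← hβ]; exact H.hβ)
  obtain ⟨y, hy, hy1, hy2⟩ := hpr H S.l S.r wl (by rw [hα]; exact S.hl) (by rw [hβ]; exact S.hr)
    (by rw [hα]; exact hwl) x (fun v => ev (s v).L x) (fun v => ev (s v).R x)
    (fun v => ev (s v).F x) (hrel x hx) (by rw [← hAdef]; exact (hA true x hx).ne') a t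
  rw [← hAdef, ← hAdef] at hy1 hy2
  obtain ⟨h, hh, hh1, hh2⟩ := hcr H.up (H.dn true) (fun v => openMat true (M v) x)
    (fun v => (M v).l)
    (fun v => (M v).D.overNext (M v).r) (fun v => (M v).D.underNext (M v).l) (fun v => (M v).r)
    (fun v => fwd (M v).D x (M v).l) (fun v => bwd (M v).D x ((M v).D.overNext (M v).r))
    (fun v => ev (s v).L x) (fun v => ev (s v).R x) (fun v => ev (s v).F x) x hnode
    (fun v => (hbR v).ne') a t y hy
  have hupn : ∀ v, H.up v = none ↔ v = S.l := by
    intro v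
    unfold Hyp.up
    rw [hα, ← S.hl, S.D.underNext.apply_eq_iff_eq, Option.some_inj]
  have hdnn : ∀ v, H.dn true v = none ↔ v = wb := by
    intro v
    unfold Hyp.dn
    rw [hβ, if_pos rfl, Equiv.symm_apply_eq, hwb, Option.some_inj]
  have hsum1 : ∑ v, (if H.up v = none then
      (Pi.single ⟨v, (M v).l⟩ (fwd (M v).D x (M v).l * a) : (Σ v, (M v).V) → ℝ) else 0) =
      Pi.single ⟨S.l, (M S.l).l⟩ (fwd (M S.l).D x (M S.l).l * a) := by
    rw [Finset.sum_eq_single S.l, if_pos ((hupn _).2 rfl)]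
    · intro v _ hv
      rw [if_neg fun h0 => hv ((hupn v).1 h0)]
    · intro h0
      exact absurd (Finset.mem_univ _) h0
  have hsum2 : ∑ v, (if H.dn true v = none then
      (Pi.single ⟨v, (M v).D.overNext (M v).r⟩
        (bwd (M v).D x ((M v).D.overNext (M v).r) * t) : (Σ v, (M v).V) → ℝ) else 0) =
      Pi.single ⟨wb, (M wb).D.overNext (M wb).r⟩
        (bwd (M wb).D x ((M wb).D.overNext (M wb).r) * t) := by
    rw [Finset.sum_eq_single wb, if_pos ((hdnn _).2 rfl)]
    · intro v _ hv
      rw [if_neg fun h0 => hv ((hdnn v).1 h0)]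
    · intro h0
      exact absurd (Finset.mem_univ _) h0
  refine ⟨h, ?_, ?_, ?_⟩
  · rw [hmf', fill_over S.D S.l S.r wb M S.hr hwb]
    refine hh.trans ?_
    refine (congrArg₂ _ hsum1 hsum2).trans ?_
    rfl
  · rw [fill_under S.D S.l S.r wl M S.hl hwl, hF x hx, hR x hx, hL x hx]
    have e1 := hh1 wl
    rw [e1]
    linarith [hy1]
  · have e1 := hh2 S.r
    have e2 : h (fill S.D S.l S.r M).r = y (S.r, false) := e1
    rw [e2, hF x hx, hR x hx]
    linarith [hy2]

end Pool.Agent.Helper54.PG
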